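import Pool.Agent.H306R2.RG.StubsC

set_option autoImplicit false

/-! Project RG, task FIN: final assembly from the eight families. `FIN_of` uses `CLS` and `INJ` as
hypotheses. -/

namespace Pool.Agent.H463R2.RGFIN

open Finset Filter Topology MeasureTheory Pool.Agent.H306R2.RZ Pool.Agent.H306R2.RG
open Pool.Agent.H306R2.RG.StubsC (RPC POS)

noncomputable section

/-- the statement of `CLS` -/
def S_CLS : Prop := ∀ (N : ℕ) (_ : N ≠ 0) (χ : DirichletCharacter ℂ N) (_ : χ.IsPrimitive)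
    (_ : χ ^ 2 = 1) (_ : χ ≠ 1),
    ∃ (φ : FD) (d : ℕ), Fam φ ∧ φ.A d ∧ Squarefree d ∧ N = φ.r * d ∧
      ∀ n : ℕ, n ≠ 0 → χ (n : ZMod N) = ((cf φ d n : ℝ) : ℂ)

/-- the statement of `INJ` -/
def S_INJ : Prop := ∀ (φ1 φ2 : FD) (_ : Fam φ1) (_ : Fam φ2) (d1 d2 : ℕ) (_ : φ1.A d1)
    (_ : Squarefree d1) (_ : φ2.A d2) (_ : Squarefree d2) (_ : φ1.r * d1 = φ2.r * d2)
    (_ : ∀ n : ℕ, n ≠ 0 → cf φ1 d1 n = cf φ2 d2 n), φ1 = φ2 ∧ d1 = d2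

/-- `p` is the character of the family `φ` at `d`. -/
def Qr (φ : FD) (d : ℕ) (p : Σ N : ℕ, DirichletCharacter ℂ N) : Prop :=
  p.1 = φ.r * d ∧ ∀ n : ℕ, n ≠ 0 → p.2 (n : ZMod p.1) = ((cf φ d n : ℝ) : ℂ)

/-- all properties -/
def Rr (φ : FD) (d : ℕ) (p : Σ N : ℕ, DirichletCharacter ℂ N) : Prop :=
  p ∈ RPC ∧ Qr φ d p ∧ ∃ _ : NeZero p.1, ∀ σ : ℝ, 0 < σ →
    DirichletCharacter.LFunction p.2 (σ : ℂ) = ((LLg φ d σ : ℝ) : ℂ)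

theorem Qr_unique {φ : FD} {d : ℕ} {p p' : Σ N : ℕ, DirichletCharacter ℂ N} (h0 : p.1 ≠ 0)
    (h : Qr φ d p) (h' : Qr φ d p') : p = p' := by
  obtain ⟨N, χ⟩ := p
  obtain ⟨N', χ'⟩ := p'
  obtain ⟨h1, h2⟩ := h
  obtain ⟨h1', h2'⟩ := h'
  simp only at h0 h1 h2 h1' h2'
  have hN : N = N' := h1.trans h1'.symm
  subst hN
  have : χ = χ' := by
    apply MulChar.ext'
    intro a
    haveI : NeZero N := ⟨h0⟩
    have ha : a = ((a.val + N : ℕ) : ZMod N) := by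
      rw [Nat.cast_add, ZMod.natCast_self, add_zero, ZMod.natCast_zmod_val]
    have hne : a.val + N ≠ 0 := by omega
    rw [ha, h2 _ hne, h2' _ hne]
  rw [this]

theorem Rr_exists (hCG : ∀ φ, Fam φ → CG φ) {φ : FD} (hφ : Fam φ) {d : ℕ} (hd : d ∈ SFg φ) :
    ∃ p, Rr φ d p := by
  obtain ⟨h1, χ, h2, h3, h4, h5, h6⟩ := (hCG φ hφ).chi d hd.1 hd.2
  refine ⟨⟨φ.r * d, χ⟩, ⟨?_, h2, h3, h4⟩, ⟨rfl, h5⟩, ⟨h1, h6⟩⟩
  exact h1.out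

open Classical in
/-- the character of the family at `d` -/
def ch (φ : FD) (d : ℕ) : Σ N : ℕ, DirichletCharacter ℂ N :=
  if h : ∃ p, Rr φ d p then h.choose else ⟨0, 1⟩

theorem ch_spec (hCG : ∀ φ, Fam φ → CG φ) {φ : FD} (hφ : Fam φ) {d : ℕ} (hd : d ∈ SFg φ) :
    Rr φ d (ch φ d) := by
  have h := Rr_exists hCG hφ hd
  unfold ch
  rw [dif_pos h]
  exact h.choose_spec

open Classical in
/-- the eight families -/
def FS : Finset FD :=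
  {F8 1, F8 (-1), F4 1, F4 (-1), F1 1 1, F1 (-1) 1, F1 1 5, F1 (-1) 5}

theorem mem_FS (φ : FD) : φ ∈ FS ↔ Fam φ := by
  classical
  unfold FS Fam
  simp only [Finset.mem_insert, Finset.mem_singleton]
  constructor
  · rintro (h | h | h | h | h | h | h | h)
    · exact ⟨1, Or.inl rfl, Or.inl h⟩
    · exact ⟨-1, Or.inr rfl, Or.inl h⟩
    · exact ⟨1, Or.inl rfl, Or.inr (Or.inl h)⟩
    · exact ⟨-1, Or.inr rfl, Or.inr (Or.inl h)⟩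
    · exact ⟨1, Or.inl rfl, Or.inr (Or.inr (Or.inl h))⟩
    · exact ⟨-1, Or.inr rfl, Or.inr (Or.inr (Or.inl h))⟩
    · exact ⟨1, Or.inl rfl, Or.inr (Or.inr (Or.inr h))⟩
    · exact ⟨-1, Or.inr rfl, Or.inr (Or.inr (Or.inr h))⟩
  · rintro ⟨ε, (rfl | rfl), (h | h | h | h)⟩ <;> simp [h]

theorem r_bd {φ : FD} (hφ : Fam φ) : 1 ≤ φ.r ∧ φ.r ≤ 8 := by
  obtain ⟨ε, -, (rfl | rfl | rfl | rfl)⟩ := hφ <;> simp [F8, F4, F1]

/-- the squarefree `d` of the family with `r d ≤ X` -/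
def Ax (φ : FD) (X : ℕ) : Set ℕ := SFg φ ∩ {d | d ≤ X / φ.r}

/-- the good ones -/
def Bx (φ : FD) (X : ℕ) : Set ℕ :=
  SFg φ ∩ {d | d ≤ X / φ.r} ∩ {d | ∀ σ : ℝ, 0 < σ → σ < 1 → 0 < LLg φ d σ}

theorem Ax_fin (φ : FD) (X : ℕ) : (Ax φ X).Finite :=
  (Set.finite_Iic (X / φ.r)).subset fun _ h => h.2

theorem Bx_fin (φ : FD) (X : ℕ) : (Bx φ X).Finite :=
  (Ax_fin φ X).subset fun _ h => h.1

theorem mem_le {φ : FD} (hφ : Fam φ) {X d : ℕ} : d ≤ X / φ.r ↔ φ.r * d ≤ X := by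
  rw [Nat.le_div_iff_mul_le (r_bd hφ).1, mul_comm]

theorem inj_gen (hINJ : S_INJ) (hCG : ∀ φ, Fam φ → CG φ) {φ1 φ2 : FD} (h1 : Fam φ1)
    (h2 : Fam φ2) {d1 d2 : ℕ} (hd1 : d1 ∈ SFg φ1) (hd2 : d2 ∈ SFg φ2)
    (h : ch φ1 d1 = ch φ2 d2) : φ1 = φ2 ∧ d1 = d2 := by
  have s1 := (ch_spec hCG h1 hd1).2.1
  have s2 := (ch_spec hCG h2 hd2).2.1
  rw [← h] at s2
  refine hINJ φ1 φ2 h1 h2 d1 d2 hd1.1 hd1.2 hd2.1 hd2.2 (s1.1.symm.trans s2.1) fun n hn => ?_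
  have e1 := s1.2 n hn
  have e2 := s2.2 n hn
  rw [e1] at e2
  exact_mod_cast e2

/-- final assembly from the eight families -/
theorem FIN_of (hCLS : S_CLS) (hINJ : S_INJ) (hCG : ∀ φ, Fam φ → CG φ) (P : ℝ) (_hP : 0 ≤ P)
    (h : ∀ φ, Fam φ → ∃ N : ℕ, ∀ X : ℕ, N ≤ X → P * ((SFg φ ∩ {d | d ≤ X}).ncard : ℝ) ≤
      ((SFg φ ∩ {d | d ≤ X} ∩ {d | ∀ σ : ℝ, 0 < σ → σ < 1 → 0 < LLg φ d σ}).ncard : ℝ)) :
    ∃ N : ℕ, ∀ X : ℕ, N ≤ X →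
      (RPC ∩ {p | p.1 ≤ X}).Finite ∧
      P * ((RPC ∩ {p | p.1 ≤ X}).ncard : ℝ) ≤
        ((RPC ∩ {p | p.1 ≤ X} ∩ {p | POS p}).ncard : ℝ) := by
  classical
  have h' : ∀ φ : FD, ∃ N : ℕ, Fam φ → ∀ X : ℕ, N ≤ X →
      P * ((SFg φ ∩ {d | d ≤ X}).ncard : ℝ) ≤
      ((SFg φ ∩ {d | d ≤ X} ∩ {d | ∀ σ : ℝ, 0 < σ → σ < 1 → 0 < LLg φ d σ}).ncard : ℝ) := by
    intro φ
    by_cases hφ : Fam φ
    · obtain ⟨N, hN⟩ := h φ hφ
      exact ⟨N, fun _ => hN⟩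
    · exact ⟨0, fun hh => absurd hh hφ⟩
  choose Nf hNf using h'
  refine ⟨∑ φ ∈ FS, 8 * Nf φ, fun X hX => ?_⟩
  -- covering
  have hcov : RPC ∩ {p | p.1 ≤ X} ⊆ ⋃ φ ∈ FS, ch φ '' Ax φ X := by
    rintro p ⟨hp, hpX⟩
    obtain ⟨φ, d, hφ, hA, hs, hN, hval⟩ := hCLS p.1 hp.1 p.2 hp.2.1 hp.2.2.1 hp.2.2.2
    have hd : d ∈ SFg φ := ⟨hA, hs⟩
    have hQ : Qr φ d p := ⟨hN, hval⟩
    have hch := ch_spec hCG hφ hd
    have he : p = ch φ d := Qr_unique hp.1 hQ hch.2.1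
    simp only [Set.mem_iUnion]
    refine ⟨φ, (mem_FS φ).2 hφ, d, ⟨hd, ?_⟩, he.symm⟩
    have hpX' : p.1 ≤ X := hpX
    rw [hN] at hpX'
    exact (mem_le hφ).2 hpX'
  have hfinU : (⋃ φ ∈ FS, ch φ '' Ax φ X).Finite :=
    Set.Finite.biUnion FS.finite_toSet fun φ _ => (Ax_fin φ X).image _
  have hfin : (RPC ∩ {p | p.1 ≤ X}).Finite := hfinU.subset hcov
  refine ⟨hfin, ?_⟩
  -- upper bound
  have hup : ((RPC ∩ {p | p.1 ≤ X}).ncard : ℝ) ≤ ∑ φ ∈ FS, ((Ax φ X).ncard : ℝ) := by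
    have h1 : (RPC ∩ {p | p.1 ≤ X}).ncard ≤ (⋃ φ ∈ FS, ch φ '' Ax φ X).ncard :=
      Set.ncard_le_ncard hcov hfinU
    have h2 : (⋃ φ ∈ FS, ch φ '' Ax φ X).ncard ≤ ∑ φ ∈ FS, (Ax φ X).ncard := by
      have : (⋃ φ ∈ FS, ch φ '' Ax φ X) =
          ((FS.biUnion fun φ => (Ax_fin φ X).toFinset.image (ch φ) : Finset _) : Set _) := by
        ext p
        simp
      rw [this, Set.ncard_coe_finset]
      refine Finset.card_biUnion_le.trans (Finset.sum_le_sum fun φ _ => ?_)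
      refine Finset.card_image_le.trans ?_
      rw [Set.ncard_eq_toFinset_card _ (Ax_fin φ X)]
    exact_mod_cast h1.trans h2
  -- lower bound
  have hlow : ∑ φ ∈ FS, ((Bx φ X).ncard : ℝ) ≤
      ((RPC ∩ {p | p.1 ≤ X} ∩ {p | POS p}).ncard : ℝ) := by
    have hsub : ((FS.biUnion fun φ => (Bx_fin φ X).toFinset.image (ch φ) : Finset _) : Set _) ⊆
        RPC ∩ {p | p.1 ≤ X} ∩ {p | POS p} := by
      intro p hp
      simp only [Finset.coe_biUnion, Finset.coe_image, Set.Finite.coe_toFinset,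
        Set.mem_iUnion] at hp
      obtain ⟨φ, hφ, d, hd, rfl⟩ := hp
      have hφ' : Fam φ := (mem_FS φ).1 hφ
      obtain ⟨⟨hd1, hd2⟩, hd3⟩ := hd
      obtain ⟨c1, c2, c3, c4⟩ := ch_spec hCG hφ' hd1
      refine ⟨⟨c1, ?_⟩, ⟨c3, fun s hs0 hs1 => ?_⟩⟩
      · show (ch φ d).1 ≤ X
        rw [c2.1]
        exact (mem_le hφ').1 hd2
      · rw [c4 s hs0]
        exact ⟨Complex.ofReal_im _, by rw [Complex.ofReal_re]; exact hd3 s hs0 hs1⟩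
    have h1 : (FS.biUnion fun φ => (Bx_fin φ X).toFinset.image (ch φ)).card ≤
        (RPC ∩ {p | p.1 ≤ X} ∩ {p | POS p}).ncard := by
      rw [← Set.ncard_coe_finset]
      exact Set.ncard_le_ncard hsub (hfin.subset Set.inter_subset_left)
    have h2 : (FS.biUnion fun φ => (Bx_fin φ X).toFinset.image (ch φ)).card =
        ∑ φ ∈ FS, (Bx φ X).ncard := by
      rw [Finset.card_biUnion]
      · refine Finset.sum_congr rfl fun φ hφ => ?_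
        rw [Finset.card_image_of_injOn, Set.ncard_eq_toFinset_card _ (Bx_fin φ X)]
        intro d1 hd1 d2 hd2 he
        simp only [Set.Finite.coe_toFinset] at hd1 hd2
        exact (inj_gen hINJ hCG ((mem_FS φ).1 hφ) ((mem_FS φ).1 hφ) hd1.1.1 hd2.1.1 he).2
      · intro φ1 h1 φ2 h2 hne
        rw [Function.onFun, Finset.disjoint_left]
        intro p hp1 hp2
        simp only [Finset.mem_image, Set.Finite.mem_toFinset] at hp1 hp2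
        obtain ⟨d1, hd1, rfl⟩ := hp1
        obtain ⟨d2, hd2, he⟩ := hp2
        exact hne (inj_gen hINJ hCG ((mem_FS φ1).1 h1) ((mem_FS φ2).1 h2) hd1.1.1 hd2.1.1
          he.symm).1
    rw [h2] at h1
    exact_mod_cast h1
  calc P * ((RPC ∩ {p | p.1 ≤ X}).ncard : ℝ) ≤ P * ∑ φ ∈ FS, ((Ax φ X).ncard : ℝ) :=
        mul_le_mul_of_nonneg_left hup _hP
    _ = ∑ φ ∈ FS, P * ((Ax φ X).ncard : ℝ) := Finset.mul_sum _ _ _
    _ ≤ ∑ φ ∈ FS, ((Bx φ X).ncard : ℝ) := by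
        refine Finset.sum_le_sum fun φ hφ => ?_
        have hφ' := (mem_FS φ).1 hφ
        refine hNf φ hφ' (X / φ.r) ?_
        have h8 : 8 * Nf φ ≤ X :=
          (Finset.single_le_sum (f := fun φ => 8 * Nf φ) (fun _ _ => Nat.zero_le _) hφ).trans hX
        rw [Nat.le_div_iff_mul_le (r_bd hφ').1]
        have := (r_bd hφ').2
        nlinarith
    _ ≤ _ := hlow

/-- final assembly from the eight families (with the stubs `CLS`, `INJ`) -/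
theorem FIN (hCG : ∀ φ, Fam φ → CG φ) (P : ℝ) (hP : 0 ≤ P)
    (h : ∀ φ, Fam φ → ∃ N : ℕ, ∀ X : ℕ, N ≤ X → P * ((SFg φ ∩ {d | d ≤ X}).ncard : ℝ) ≤
      ((SFg φ ∩ {d | d ≤ X} ∩ {d | ∀ σ : ℝ, 0 < σ → σ < 1 → 0 < LLg φ d σ}).ncard : ℝ)) :
    ∃ N : ℕ, ∀ X : ℕ, N ≤ X →
      (RPC ∩ {p | p.1 ≤ X}).Finite ∧
      P * ((RPC ∩ {p | p.1 ≤ X}).ncard : ℝ) ≤ ((RPC ∩ {p | p.1 ≤ X} ∩ {p | POS p}).ncard : ℝ) :=
  FIN_of Pool.Agent.H306R2.RG.StubsC.CLS Pool.Agent.H306R2.RG.StubsC.INJ hCG P hP h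

end

end Pool.Agent.H463R2.RGFIN
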